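import Pool.Agent.H295R2.SI.Defs

/-! Task T03 of h295d_tasks (helper218): the square of the transform of `gS s`. -/

open Complex Filter Topology Set MeasureTheory

namespace H218SI3

open H370 H295SI

theorem gS_cont (s : ℝ) : Continuous (gS s) := by
  unfold gS
  fun_prop

theorem kapG_set (g : ℝ → ℝ) (z : ℂ) : kapG g z = ∫ x : ℝ, (Set.Icc (-1 / 2 : ℝ) (1 / 2)).indicator
    (fun x : ℝ => (g x : ℂ) * cexp (I * z * x)) x := by
  unfold kapG
  rw [integral_indicator measurableSet_Icc, intervalIntegral.integral_of_le (by norm_num),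
    integral_Icc_eq_integral_Ioc]

theorem conv_eval (s : ℝ) (hs : s ≠ 0) (hsin : Real.sin (s / 2) ≠ 0) (a : ℝ) :
    ∫ x in (Set.Icc (-1 / 2 : ℝ) (1 / 2) ∩ Set.Icc (a - 1 / 2) (a + 1 / 2)),
    gS s x * gS s (a - x) = RS s a := by
  by_cases ha : |a| ≤ 1
  · have hset : Set.Icc (-1 / 2 : ℝ) (1 / 2) ∩ Set.Icc (a - 1 / 2) (a + 1 / 2) =
        Set.Icc ((a - (1 - |a|)) / 2) ((a + (1 - |a|)) / 2) := by
      rw [Set.Icc_inter_Icc]
      rcases abs_cases a with ⟨h1, h2⟩ | ⟨h1, h2⟩
      · rw [h1]
        have e1 : (-1 / 2 : ℝ) ⊔ (a - 1 / 2) = (a - (1 - a)) / 2 := by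
          rw [sup_eq_right.2 (by linarith)]; ring
        have e2 : (1 / 2 : ℝ) ⊓ (a + 1 / 2) = (a + (1 - a)) / 2 := by
          rw [inf_eq_left.2 (by linarith)]; ring
        rw [e1, e2]
      · rw [h1]
        have e1 : (-1 / 2 : ℝ) ⊔ (a - 1 / 2) = (a - (1 - -a)) / 2 := by
          rw [sup_eq_left.2 (by linarith)]; ring
        have e2 : (1 / 2 : ℝ) ⊓ (a + 1 / 2) = (a + (1 - -a)) / 2 := by
          rw [inf_eq_right.2 (by linarith)]; ring
        rw [e1, e2]
    rw [hset, integral_Icc_eq_integral_Ioc, ← intervalIntegral.integral_of_le (by linarith)]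
    have hd : ∀ x ∈ Set.uIcc ((a - (1 - |a|)) / 2) ((a + (1 - |a|)) / 2), HasDerivAt
      (fun x : ℝ => (x * Real.cos (s * a) + Real.sin (s * (2 * x - a)) /
        (2 * s)) * (s ^ 2 / (8 * Real.sin (s / 2) ^ 2))) (gS s x * gS s (a - x)) x := by
      intro x _
      have hx : HasDerivAt (fun x : ℝ => x) 1 x := hasDerivAt_id x
      have h1 : HasDerivAt (fun x : ℝ => s * (2 * x - a)) (s * 2) x := by
        simpa using ((hx.const_mul 2).sub_const a).const_mul s
      have h2 := ((hx.mul_const (Real.cos (s * a))).add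
        (h1.sin.div_const (2 * s))).mul_const (s ^ 2 / (8 * Real.sin (s / 2) ^ 2))
      refine h2.congr_deriv ?_
      unfold gS
      have e1 : Real.cos (s * a) = Real.cos (s * x + s * (a - x)) := by
        congr 1; ring
      have e2 : Real.cos (s * (2 * x - a)) = Real.cos (s * x - s * (a - x)) := by
        congr 1; ring
      rw [e1, e2, Real.cos_add, Real.cos_sub]
      field_simp
      ring
    rw [intervalIntegral.integral_eq_sub_of_hasDerivAt hd]
    · unfold RS
      rw [if_pos ha]
      have e1 : s * (2 * ((a + (1 - |a|)) / 2) - a) = s * (1 - |a|) := by ring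
      have e2 : s * (2 * ((a - (1 - |a|)) / 2) - a) = -(s * (1 - |a|)) := by ring
      have e3 : Real.cos (s * a) = Real.cos (s * |a|) := by
        rcases abs_cases a with ⟨h1, h2⟩ | ⟨h1, h2⟩
        · rw [h1]
        · rw [h1, mul_neg, Real.cos_neg]
      rw [e1, e2, Real.sin_neg, e3]
      field_simp
      ring
    · apply Continuous.intervalIntegrable
      have := gS_cont s
      fun_prop
  · have hset : Set.Icc (-1 / 2 : ℝ) (1 / 2) ∩ Set.Icc (a - 1 / 2) (a + 1 / 2) = ∅ := by
      rw [Set.Icc_inter_Icc]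
      apply Set.Icc_eq_empty
      intro h
      apply ha
      simp only [sup_le_iff, le_inf_iff] at h
      rw [abs_le]
      constructor <;> linarith [h.1.1, h.1.2, h.2.1, h.2.2]
    rw [hset]
    unfold RS
    rw [if_neg ha]
    simp

theorem kap_sq (s : ℝ) (hs : s ≠ 0) (hsin : Real.sin (s / 2) ≠ 0) (z : ℂ) :
    kapG (gS s) z ^ 2 = ∫ α in (-1 : ℝ)..1, (RS s α : ℂ) * cexp (I * z * α) := by
  set f : ℝ → ℂ := (Set.Icc (-1 / 2 : ℝ) (1 / 2)).indicator
    (fun x : ℝ => (gS s x : ℂ) * cexp (I * z * x)) with hf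
  have hcont : Continuous (fun x : ℝ => (gS s x : ℂ) * cexp (I * z * x)) := by
    have := gS_cont s
    fun_prop
  have hfi : Integrable f := by
    rw [hf, integrable_indicator_iff measurableSet_Icc]
    exact hcont.continuousOn.integrableOn_Icc
  have h1 := integral_convolution (ContinuousLinearMap.mul ℝ ℂ) (μ := volume) (ν := volume) hfi hfi
  rw [kapG_set, ← hf, pow_two]
  rw [ContinuousLinearMap.mul_apply'] at h1
  rw [← h1]
  have h2 : ∀ a : ℝ, (convolution f f (ContinuousLinearMap.mul ℝ ℂ) volume) a =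
      (RS s a : ℂ) * cexp (I * z * a) := by
    intro a
    rw [convolution_def]
    rw [← conv_eval s hs hsin a]
    have h3 : ∀ t : ℝ, (ContinuousLinearMap.mul ℝ ℂ) (f t) (f (a - t)) =
        (Set.Icc (-1 / 2 : ℝ) (1 / 2) ∩ Set.Icc (a - 1 / 2) (a + 1 / 2)).indicator
          (fun t : ℝ => ((gS s t * gS s (a - t) : ℝ) : ℂ) * cexp (I * z * a)) t := by
      intro t
      rw [ContinuousLinearMap.mul_apply', hf]
      by_cases ht : t ∈ Set.Icc (-1 / 2 : ℝ) (1 / 2)
      · by_cases ht2 : a - t ∈ Set.Icc (-1 / 2 : ℝ) (1 / 2)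
        · have ht3 : t ∈ Set.Icc (-1 / 2 : ℝ) (1 / 2) ∩ Set.Icc (a - 1 / 2) (a + 1 / 2) := by
            refine ⟨ht, ?_, ?_⟩
            · have := ht2.2; linarith
            · have := ht2.1; linarith
          rw [Set.indicator_of_mem ht, Set.indicator_of_mem ht2, Set.indicator_of_mem ht3]
          have e : cexp (I * z * a) = cexp (I * z * t) * cexp (I * z * ((a - t : ℝ) : ℂ)) := by
            rw [← Complex.exp_add]
            congr 1
            push_cast
            ring
          rw [e]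
          push_cast
          ring
        · have ht3 : t ∉ Set.Icc (-1 / 2 : ℝ) (1 / 2) ∩ Set.Icc (a - 1 / 2) (a + 1 / 2) := by
            rintro ⟨_, h5, h6⟩
            apply ht2
            constructor <;> linarith
          rw [Set.indicator_of_notMem ht2, Set.indicator_of_notMem ht3, mul_zero]
      · have ht3 : t ∉ Set.Icc (-1 / 2 : ℝ) (1 / 2) ∩ Set.Icc (a - 1 / 2) (a + 1 / 2) :=
          fun h => ht h.1
        rw [Set.indicator_of_notMem ht, Set.indicator_of_notMem ht3, zero_mul]
    simp_rw [h3]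
    rw [integral_indicator (measurableSet_Icc.inter measurableSet_Icc), integral_mul_const,
      integral_complex_ofReal]
  simp_rw [h2]
  rw [intervalIntegral.integral_of_le (by norm_num), ← integral_Icc_eq_integral_Ioc,
    ← integral_indicator measurableSet_Icc]
  congr 1
  ext a
  by_cases ha : a ∈ Set.Icc (-1 : ℝ) 1
  · rw [Set.indicator_of_mem ha]
  · rw [Set.indicator_of_notMem ha]
    have : ¬ |a| ≤ 1 := by
      rw [abs_le]; exact ha
    unfold RS
    rw [if_neg this]
    simp

theorem kSqS : H295SI.KSqS := by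
  intro s h0 h1 z
  refine kap_sq s h0.ne' (Real.sin_pos_of_pos_of_lt_pi (by linarith) ?_).ne' z
  have h2 : Real.sqrt 2 < 2 := by
    rw [Real.sqrt_lt' (by norm_num)]; norm_num
  linarith [Real.pi_gt_three]

end H218SI3
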